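import Pool.Agent.L0h21.CK.Def
import Pool.Agent.L0h21.SN.Pad1

set_option autoImplicit false

/-! # Project CK, module chart -/

namespace Pool.Agent.L0h9.CK

open MvPolynomial MeasureTheory
open Pool.Agent.W427.SMC (msZ bsZ mu)
open Pool.Agent.L0h21.CK

attribute [local instance] msZ bsZ

variable {p : ℕ} [Fact p.Prime] {V : Type} [Fintype V]

theorem lip (θ : MvPolynomial V ℤ_[p]) (y y' : V → ℤ_[p]) :
    ‖eval y θ - eval y' θ‖ ≤ ‖y - y'‖ := by
  induction θ using MvPolynomial.induction_on with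
  | C a => rw [eval_C, eval_C, sub_self, norm_zero]; exact norm_nonneg _
  | add f g hf hg =>
    rw [map_add, map_add, show eval y f + eval y g - (eval y' f + eval y' g)
      = (eval y f - eval y' f) + (eval y g - eval y' g) by ring]
    exact (PadicInt.nonarchimedean _ _).trans (max_le hf hg)
  | mul_X f i hf =>
    rw [map_mul, map_mul, eval_X, eval_X, show eval y f * y i - eval y' f * y' i
      = (eval y f - eval y' f) * y i + eval y' f * (y i - y' i) by ring]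
    refine (PadicInt.nonarchimedean _ _).trans (max_le ?_ ?_)
    · rw [norm_mul]
      exact (mul_le_of_le_one_right (norm_nonneg _) (PadicInt.norm_le_one _)).trans hf
    · rw [norm_mul]
      exact (mul_le_of_le_one_left (norm_nonneg _) (PadicInt.norm_le_one _)).trans
        (norm_le_pi_norm (y - y') i)

/-- bounded denominators -/
theorem exists_den (c : ℚ_[p]) : ∃ K : ℕ, ∀ k, K ≤ k → ∃ a : ℤ_[p], (a : ℚ_[p]) = (p : ℚ_[p]) ^ k * c := by
  have hp1 : (1 : ℝ) < p := by exact_mod_cast (Fact.out : p.Prime).one_lt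
  obtain ⟨K, hK⟩ := pow_unbounded_of_one_lt ‖c‖ hp1
  refine ⟨K, fun k hk => ⟨⟨(p : ℚ_[p]) ^ k * c, ?_⟩, rfl⟩⟩
  rw [norm_mul, norm_pow, Padic.norm_p, inv_pow]
  have h1 : ‖c‖ ≤ (p : ℝ) ^ k := hK.le.trans (pow_le_pow_right₀ hp1.le hk)
  have h2 : (0 : ℝ) < (p : ℝ) ^ k := by positivity
  rw [inv_mul_le_iff₀ h2, mul_one]
  exact h1

theorem exists_int (q : MvPolynomial V ℚ_[p]) (hq : OrdP 2 q) : ∃ k1 : ℕ, ∀ l, k1 ≤ l →
    ∃ θ : MvPolynomial V ℤ_[p], ∀ y : V → ℤ_[p],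
      eval (fun i => (p : ℚ_[p]) ^ l * (y i : ℚ_[p])) q =
        (p : ℚ_[p]) ^ (l + 1) * ((eval y θ : ℤ_[p]) : ℚ_[p]) := by
  classical
  have h1 : ∀ d : V →₀ ℕ, ∃ K : ℕ, ∀ k, K ≤ k → ∃ a : ℤ_[p],
      (a : ℚ_[p]) = (p : ℚ_[p]) ^ k * coeff d q := fun d => exists_den _
  choose K hK using h1
  refine ⟨∑ d ∈ q.support, K d + 1, fun l hl => ?_⟩
  have h2 : ∀ d ∈ q.support, ∃ a : ℤ_[p],
      (p : ℚ_[p]) ^ (l + 1) * (a : ℚ_[p]) = (p : ℚ_[p]) ^ (l * d.degree) * coeff d q := by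
    intro d hd
    have h3 : 2 ≤ d.degree := by
      by_contra h
      exact (mem_support_iff.1 hd) (hq d (by omega))
    have h4 : K d ≤ ∑ d ∈ q.support, K d :=
      Finset.single_le_sum (f := K) (fun _ _ => Nat.zero_le _) hd
    obtain ⟨r, hr⟩ : ∃ r, d.degree = r + 2 := ⟨d.degree - 2, by omega⟩
    obtain ⟨a, ha⟩ := hK d (l * r + (l - 1)) (by
      have : 0 ≤ l * r := Nat.zero_le _
      omega)
    refine ⟨a, ?_⟩
    rw [ha, hr, ← mul_assoc, ← pow_add]
    congr 2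
    have : l * (r + 2) = l * r + l + l := by ring
    omega
  choose! a ha using h2
  refine ⟨∑ d ∈ q.support, monomial d (a d), fun y => ?_⟩
  rw [eval_eq', map_sum]
  have h3 : ((∑ d ∈ q.support, eval y (monomial d (a d)) : ℤ_[p]) : ℚ_[p])
      = ∑ d ∈ q.support, (a d : ℚ_[p]) * ∏ i, (y i : ℚ_[p]) ^ d i := by
    refine (map_sum (PadicInt.Coe.ringHom (p := p)) _ _).trans ?_
    refine Finset.sum_congr rfl fun d _ => ?_
    change ((eval y (monomial d (a d)) : ℤ_[p]) : ℚ_[p]) = _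
    rw [eval_monomial, PadicInt.coe_mul, Finsupp.prod_fintype _ _ (by simp)]
    congr 1
    exact map_prod (PadicInt.Coe.ringHom (p := p)) _ _ |>.trans
      (Finset.prod_congr rfl fun i _ => PadicInt.coe_pow _ _)
  rw [h3, Finset.mul_sum]
  refine Finset.sum_congr rfl fun d hd => ?_
  rw [← mul_assoc, ha d hd]
  have h4 : ∏ i, ((p : ℚ_[p]) ^ l * (y i : ℚ_[p])) ^ d i
      = (p : ℚ_[p]) ^ (l * d.degree) * ∏ i, (y i : ℚ_[p]) ^ d i := by
    simp only [mul_pow]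
    rw [Finset.prod_mul_distrib]
    congr 1
    simp only [← pow_mul]
    rw [Finset.prod_pow_eq_pow_sum, ← Finset.mul_sum, Finsupp.degree_eq_sum]
  rw [h4]
  ring

theorem chart_core (φ : V → MvPolynomial V ℚ_[p]) (h : ∀ v, OrdP 2 (φ v - X v)) :
    ∃ k1 : ℕ, ∀ l, k1 ≤ l → ∃ τ : (V → ℤ_[p]) → (V → ℤ_[p]),
      MeasurePreserving τ (Measure.pi fun _ : V => mu p) (Measure.pi fun _ : V => mu p) ∧
      ∀ (y : V → ℤ_[p]) (v : V), eval (fun i => (p : ℚ_[p]) ^ l * (y i : ℚ_[p])) (φ v) =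
        (p : ℚ_[p]) ^ l * ((τ y v : ℤ_[p]) : ℚ_[p]) := by
  choose k hk using fun v => exists_int (φ v - X v) (h v)
  refine ⟨∑ v, k v, fun l hl => ?_⟩
  have h1 : ∀ v, k v ≤ l := fun v =>
    (Finset.single_le_sum (f := k) (fun _ _ => Nat.zero_le _) (Finset.mem_univ v)).trans hl
  choose θ hθ using fun v => hk v l (h1 v)
  set τ : (V → ℤ_[p]) → (V → ℤ_[p]) := fun y v => y v + (p : ℤ_[p]) * eval y (θ v) with hτ
  refine ⟨τ, Pool.Agent.L0h21.SN.isom_mp p τ (Isometry.of_dist_eq fun y y' => ?_), fun y v => ?_⟩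
  · rw [dist_eq_norm, dist_eq_norm]
    by_cases hy : y = y'
    · rw [hy, sub_self, sub_self]
    have hpos : 0 < ‖y - y'‖ := norm_pos_iff.2 (sub_ne_zero.2 hy)
    have hp1 : (p : ℝ)⁻¹ < 1 := inv_lt_one_of_one_lt₀ (by
      exact_mod_cast (Fact.out : p.Prime).one_lt)
    set E : V → ℤ_[p] := fun v => (p : ℤ_[p]) * (eval y (θ v) - eval y' (θ v)) with hE
    have h2 : τ y - τ y' = (y - y') + E := by
      funext v
      simp only [hτ, hE, Pi.sub_apply, Pi.add_apply]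
      ring
    have h3 : ‖E‖ ≤ (p : ℝ)⁻¹ * ‖y - y'‖ := by
      rw [pi_norm_le_iff_of_nonneg (by positivity)]
      intro v
      simp only [hE]
      rw [norm_mul, PadicInt.norm_p]
      gcongr
      exact lip _ _ _
    have h4 : ‖E‖ < ‖y - y'‖ := h3.trans_lt (mul_lt_of_lt_one_left hpos hp1)
    rw [h2, IsUltrametricDist.norm_add_eq_max_of_norm_ne_norm h4.ne', max_eq_left h4.le]
  · have h2 := hθ v y
    rw [map_sub, eval_X, sub_eq_iff_eq_add] at h2
    rw [h2]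
    simp only [hτ]
    push_cast
    ring

end Pool.Agent.L0h9.CK
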