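import Pool.Agent.L0h21.CK.StmP
import Pool.Agent.L0h9.CK.ChartA

set_option autoImplicit false

/-! # Project CK, module chart -/

namespace Pool.Agent.L0h9.CK

theorem t_chart : Pool.Agent.L0h21.CK.S_chart := by
  intro p _ V _ φ h
  exact chart_core φ h

end Pool.Agent.L0h9.CK
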