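import Pool.Agent.L0h9.CK.ChartA

set_option autoImplicit false

/-! # Project CK, module quad -/

namespace Pool.Agent.L0h9.CK

open MvPolynomial

theorem pd_quad {R : Type} [CommRing R] {W : Type} [Fintype W] (z : W → R) (i : W) :
    pderiv i (∑ w, C (z w) * X w ^ 2 : MvPolynomial W R) = C (2 * z i) * X i := by
  classical
  rw [map_sum, Finset.sum_eq_single i]
  · rw [pderiv_C_mul, pderiv_pow, pderiv_X_self, map_mul]
    simp only [Nat.cast_ofNat, Nat.add_one_sub_one, pow_one, mul_one]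
    rw [show (C (2 : R) : MvPolynomial W R) = 2 from map_ofNat C 2]
    ring
  · intro b _ hb
    rw [pderiv_C_mul, pderiv_pow, pderiv_X_of_ne hb, mul_zero, mul_zero]
  · intro h
    exact absurd (Finset.mem_univ i) h

theorem quad_core {p : ℕ} [Fact p.Prime] (σ : ℚ_[p] →+* ℂ) {W : Type} [Fintype W]
    (a : W → ℚ_[p]) (ha : ∀ w, a w ≠ 0) (n : ℕ) :
    ∃ (K : ℕ) (G : MvPolynomial W ℤ_[p]), G.IsWeightedHomogeneous (fun _ => 1) 2 ∧
      (∀ i, constantCoeff (pderiv i G) = 0) ∧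
      (∀ z : W → ℂ, (∀ i, eval z (pderiv i (map (σ.comp PadicInt.Coe.ringHom) G)) = 0) → z = 0) ∧
      map PadicInt.Coe.ringHom G = C ((p : ℚ_[p]) ^ K) *
        aeval (fun v => C (((p : ℚ_[p]) ^ n)⁻¹) * X v)
          (∑ w, C (a w) * X w ^ 2 : MvPolynomial W ℚ_[p]) := by
  have hp0 : (p : ℚ_[p]) ≠ 0 := by exact_mod_cast (Fact.out : p.Prime).ne_zero
  choose K hK using fun w => exists_den (p := p) ((((p : ℚ_[p]) ^ n)⁻¹) ^ 2 * a w)
  choose z hz using fun w => hK w (∑ w, K w)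
    (Finset.single_le_sum (f := K) (fun _ _ => Nat.zero_le _) (Finset.mem_univ w))
  refine ⟨∑ w, K w, ∑ w, C (z w) * X w ^ 2, ?_, fun i => ?_, fun y hy => ?_, ?_⟩
  · refine Submodule.sum_mem (weightedHomogeneousSubmodule ℤ_[p] (fun _ : W => 1) 2) fun w _ => ?_
    have h1 := (isWeightedHomogeneous_C (fun _ : W => 1) (z w)).mul
      ((isWeightedHomogeneous_X ℤ_[p] (fun _ : W => 1) w).pow 2)
    simpa using h1
  · rw [pd_quad, map_mul, constantCoeff_X, mul_zero]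
  · funext i
    have h1 := hy i
    have h2 : map (σ.comp PadicInt.Coe.ringHom) (∑ w, C (z w) * X w ^ 2 : MvPolynomial W ℤ_[p])
        = ∑ w, C (σ (z w : ℚ_[p])) * X w ^ 2 := by
      rw [map_sum]
      refine Finset.sum_congr rfl fun w _ => ?_
      rw [map_mul, map_pow, map_X, map_C]
      rfl
    rw [h2, pd_quad (fun w => σ (z w : ℚ_[p])), map_mul, eval_C, eval_X] at h1
    have h3 : σ (z i : ℚ_[p]) ≠ 0 := by
      rw [map_ne_zero, hz i]
      exact mul_ne_zero (pow_ne_zero _ hp0)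
        (mul_ne_zero (pow_ne_zero _ (inv_ne_zero (pow_ne_zero _ hp0))) (ha i))
    exact (mul_eq_zero.1 h1).resolve_left (mul_ne_zero two_ne_zero h3)
  · rw [map_sum, map_sum, Finset.mul_sum]
    refine Finset.sum_congr rfl fun w _ => ?_
    have h1 : (PadicInt.Coe.ringHom (p := p)) (z w) = (p : ℚ_[p]) ^ (∑ w, K w) *
        ((((p : ℚ_[p]) ^ n)⁻¹) ^ 2 * a w) := hz w
    have h2 : aeval (fun v => C (((p : ℚ_[p]) ^ n)⁻¹) * X v)
        (C (a w) * X w ^ 2 : MvPolynomial W ℚ_[p])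
          = C (a w) * (C (((p : ℚ_[p]) ^ n)⁻¹) * X w) ^ 2 := by
      rw [map_mul, map_pow, aeval_X, aeval_C, algebraMap_eq]
    have h3 : map (PadicInt.Coe.ringHom (p := p)) (C (z w) * X w ^ 2 : MvPolynomial W ℤ_[p])
        = C ((p : ℚ_[p]) ^ (∑ w, K w) * ((((p : ℚ_[p]) ^ n)⁻¹) ^ 2 * a w)) * X w ^ 2 := by
      rw [map_mul, map_pow, map_X, map_C, h1]
    rw [h2, h3, C_mul, C_mul, C_pow (((p : ℚ_[p]) ^ n)⁻¹) 2]
    ring

end Pool.Agent.L0h9.CK
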