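import Pool.Agent.L0h21.CK.StmP
import Pool.Agent.N138.RF.Fin
import Pool.Agent.L0h9.CK.QuadA

set_option autoImplicit false

/-! # Project CK, module quad -/

namespace Pool.Agent.L0h9.CK

open MvPolynomial

theorem t_quad : Pool.Agent.L0h21.CK.S_quad := by
  classical
  intro p _ σ W _ _ a ha
  refine Pool.Agent.L0h21.RW.lqa_of_gi σ _ fun n => ?_
  obtain ⟨K, G, h1, h2, h3, h4⟩ := quad_core σ a ha n
  refine ⟨K, ?_⟩
  have h5 := Pool.Agent.N138.RF.hy3.r.g5 p σ G (fun _ => 1) 2 (fun _ => one_pos) two_pos h1 h2 h3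
  rw [h4] at h5
  exact h5

end Pool.Agent.L0h9.CK
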