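import Pool.Agent.N138.SU.B1

set_option autoImplicit false

/-! # Project CK, module gauss -/

namespace Pool.Agent.L0h9.CK

open MeasureTheory
open Pool.Agent.W427.SMC
open Pool.Agent.N138.SU
open Pool.Agent.N316.SU

attribute [local instance] msZ bsZ

theorem gauss_core (p : ℕ) [Fact p.Prime] {Y : Type} [MeasurableSpace Y] (ν : Measure Y)
    [IsProbabilityMeasure ν] (φ : Y → ℤ_[p]) (hφ : Measurable φ) (n : ℕ)
    (h : ∀ y, ‖φ y‖ = ((p : ℝ)⁻¹) ^ n) (χ : UC p) : ∃ e0 : ℕ, ∀ e, e0 ≤ e → Eh ν φ χ e = 0 := by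
  refine ⟨n + χ.c + 1, fun e he => ?_⟩
  obtain ⟨k, rfl⟩ : ∃ k, e = n + k + 1 := ⟨e - n - 1, by omega⟩
  rw [B1.fub ν φ hφ]
  have h1 : ∀ y, B1.G χ (n + k + 1) (φ y) = 0 := fun y =>
    B1.G_large χ χ.c χ.hc (X_near χ) n k (by omega) (φ y) (h y)
  simp only [h1, integral_zero]

end Pool.Agent.L0h9.CK
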